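import Pool.Agent.D0H44.DM.Stm2
import Pool.Agent.D0H30.DM.Bc

/-!
# Project DM (helper44), module BC2: Borel-Cantelli in `α` only
-/

set_option autoImplicit false

namespace Pool.Agent.D0H74.DM

open Finset MeasureTheory Pool.Agent.D0H44.DM Pool.Agent.D0H30.DM

/-- the integral over `β` -/
noncomputable def Psi (f : ℝ → ℝ) (B : ℝ) (m : ℕ) (α : ℝ) : ENNReal :=
  ∫⁻ b in Set.Icc (-B) B, ENNReal.ofReal (SS f m (α, b))

lemma one_eps2 (hL2 : S_L2) (hDYA : S_DYA) (hMS : S_MS) (f : ℝ → ℝ) (A : ℝ) (hf : Continuous f)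
    (hf0 : ∀ t, 0 ≤ f t) (hA : 0 ≤ A) (hM : Mom f A) (a : ℝ) (ha : 0 < a)
    (ε : ℝ) (hε : 0 < ε) :
    ∀ᵐ α : ℝ ∂(volume.restrict (Set.Icc a (2 * a))), ∃ C : ℝ, 0 ≤ C ∧ ∀ y : ℕ, 1 ≤ y →
      ∫ b in (0:ℝ)..α, |dd f 0 y α b| ≤ C * (y : ℝ) ^ (A / 2 + ε) := by
  obtain ⟨hMS1, _, hMS3⟩ := hMS
  have hB : 0 < 2 * a := by linarith
  obtain ⟨C, hC, hL⟩ := hL2 a (2 * a) ha hB
  obtain ⟨C', hC'⟩ := hM ε hε
  have hC'0 : 0 ≤ C' := by
    have h1 := hC' 1 le_rfl
    rw [Real.one_rpow, mul_one] at h1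
    exact le_trans (intervalIntegral.integral_nonneg zero_le_one fun _ _ => sq_nonneg _) h1
  set R : Set (ℝ × ℝ) := Set.Icc a (2 * a) ×ˢ Set.Icc (-(2 * a)) (2 * a) with hR
  have hm : ∀ x y : ℝ, AEMeasurable (fun p : ℝ × ℝ => dd f x y p.1 p.2) (volume.restrict R) :=
    fun x y => hMS1 f x y a (2 * a) hf ha
  have hint := int_SS f hf R C hC hm (hL f hf hf0)
  have hRp : (volume.restrict R : Measure (ℝ × ℝ)) =
      (volume.restrict (Set.Icc a (2 * a))).prod (volume.restrict (Set.Icc (-(2 * a)) (2 * a))) := by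
    rw [Measure.prod_restrict, ← Measure.volume_eq_prod]
  set W : ℕ → ℝ := fun m => ((m : ℝ) + 1) * ((2 : ℝ) ^ m) ^ (-(A + 2 * ε)) with hW
  have hWpos : ∀ m, 0 < W m := fun m => by rw [hW]; positivity
  have hW0 : ∀ m, 0 ≤ W m := fun m => (hWpos m).le
  have hSm : ∀ m, AEMeasurable (fun p => ENNReal.ofReal (SS f m p)) (volume.restrict R) := by
    intro m
    simp only [SS_ofReal]
    exact Finset.aemeasurable_fun_sum _ fun j _ => Finset.aemeasurable_fun_sum _ fun i _ =>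
      ((hm _ _).pow_const 2).ennreal_ofReal
  have hPm : ∀ m, AEMeasurable (Psi f (2 * a) m) (volume.restrict (Set.Icc a (2 * a))) := by
    intro m
    have h1 := hSm m
    rw [hRp] at h1
    exact h1.lintegral_prod_right'
  have hPint : ∀ m, ∫⁻ α in Set.Icc a (2 * a), Psi f (2 * a) m α =
      ∫⁻ p in R, ENNReal.ofReal (SS f m p) := by
    intro m
    have h1 := hSm m
    rw [hRp] at h1 ⊢
    rw [lintegral_prod _ h1]
    rfl
  have hTm : ∀ m, AEMeasurable (fun α => ENNReal.ofReal (W m) * Psi f (2 * a) m α)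
      (volume.restrict (Set.Icc a (2 * a))) := fun m => (hPm m).const_mul _
  have hsum : ∫⁻ α in Set.Icc a (2 * a), ∑' m : ℕ, ENNReal.ofReal (W m) * Psi f (2 * a) m α ≠ ⊤ := by
    rw [lintegral_tsum hTm]
    have hr0 : 0 < (2 : ℝ) ^ (-ε) := by positivity
    have hr1 : (2 : ℝ) ^ (-ε) < 1 := Real.rpow_lt_one_of_one_lt_of_neg (by norm_num) (by linarith)
    have hterm : ∀ m : ℕ, ∫⁻ α in Set.Icc a (2 * a), ENNReal.ofReal (W m) * Psi f (2 * a) m α ≤
        ENNReal.ofReal (((m : ℝ) + 1) ^ 3 * C * C' * ((2 : ℝ) ^ (-ε)) ^ m) := by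
      intro m
      rw [lintegral_const_mul'' _ (hPm m), hPint m]
      refine (mul_le_mul_right (hint m) _).trans ?_
      rw [← ENNReal.ofReal_mul (hW0 m)]
      apply ENNReal.ofReal_le_ofReal
      have h1 := hC' ((2 : ℝ) ^ m) (one_le_pow₀ (by norm_num))
      have h2 : ((2 : ℝ) ^ m) ^ (-(A + 2 * ε)) * ((2 : ℝ) ^ m) ^ (A + ε) = ((2 : ℝ) ^ (-ε)) ^ m := by
        rw [← Real.rpow_add (by positivity), ← Real.rpow_natCast, ← Real.rpow_mul (by norm_num),
          ← Real.rpow_natCast, ← Real.rpow_mul (by norm_num)]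
        congr 1
        ring
      calc W m * (((m : ℝ) + 1) ^ 2 * C * ∫ t in (0 : ℝ)..((2 : ℝ) ^ m), f t ^ 2)
          ≤ W m * (((m : ℝ) + 1) ^ 2 * C * (C' * ((2 : ℝ) ^ m) ^ (A + ε))) := by
            apply mul_le_mul_of_nonneg_left _ (hW0 m)
            exact mul_le_mul_of_nonneg_left h1 (by positivity)
        _ = ((m : ℝ) + 1) ^ 3 * C * C' *
            (((2 : ℝ) ^ m) ^ (-(A + 2 * ε)) * ((2 : ℝ) ^ m) ^ (A + ε)) := by
            rw [hW]
            ring
        _ = _ := by rw [h2]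
    refine ne_top_of_le_ne_top ?_ (ENNReal.tsum_le_tsum hterm)
    apply Summable.tsum_ofReal_ne_top
    have hs : ∀ k : ℕ, Summable fun m : ℕ => (m : ℝ) ^ k * ((2 : ℝ) ^ (-ε)) ^ m := fun k =>
      summable_pow_mul_geometric_of_norm_lt_one k (by
        rw [Real.norm_of_nonneg hr0.le]; exact hr1)
    have h3 := (((hs 3).add ((hs 2).mul_left 3)).add ((hs 1).mul_left 3)).add (hs 0)
    refine (h3.mul_left (C * C')).congr fun m => ?_
    ring
  have hmeas : AEMeasurable (fun α => ∑' m : ℕ, ENNReal.ofReal (W m) * Psi f (2 * a) m α)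
      (volume.restrict (Set.Icc a (2 * a))) := AEMeasurable.ennreal_tsum hTm
  have hfin := ae_lt_top' hmeas hsum
  filter_upwards [hfin, ae_restrict_mem measurableSet_Icc] with α hp hα
  have hα0 : 0 < α := lt_of_lt_of_le ha hα.1
  obtain ⟨K, hK⟩ : ∃ K : ℝ, K = (∑' m : ℕ, ENNReal.ofReal (W m) * Psi f (2 * a) m α).toReal :=
    ⟨_, rfl⟩
  have hK0 : 0 ≤ K := by rw [hK]; exact ENNReal.toReal_nonneg
  have hbound : ∀ m : ℕ, Psi f (2 * a) m α ≤ ENNReal.ofReal ((W m)⁻¹ * K) := by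
    intro m
    have h1 : ENNReal.ofReal (W m) * Psi f (2 * a) m α ≤ ENNReal.ofReal K := by
      rw [hK, ENNReal.ofReal_toReal hp.ne]
      exact ENNReal.le_tsum m
    calc Psi f (2 * a) m α
        = ENNReal.ofReal ((W m)⁻¹) * (ENNReal.ofReal (W m) * Psi f (2 * a) m α) := by
          rw [← mul_assoc, ← ENNReal.ofReal_mul (inv_nonneg.mpr (hW0 m)),
            inv_mul_cancel₀ (hWpos m).ne', ENNReal.ofReal_one, one_mul]
      _ ≤ ENNReal.ofReal ((W m)⁻¹) * ENNReal.ofReal K := mul_le_mul_right h1 _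
      _ = _ := (ENNReal.ofReal_mul (inv_nonneg.mpr (hW0 m))).symm
  refine ⟨(α + K * 2 ^ (A + 2 * ε)) / 2, by positivity, fun y hy => ?_⟩
  obtain ⟨m, hmdef⟩ : ∃ m, m = Nat.log 2 y + 1 := ⟨_, rfl⟩
  have hy1 : y ≤ 2 ^ m := by
    rw [hmdef]
    exact (Nat.lt_pow_succ_log_self (by norm_num) y).le
  have hy2 : 2 ^ m ≤ 2 * y := by
    have := Nat.pow_log_le_self 2 (by omega : y ≠ 0)
    rw [hmdef, pow_succ]
    omega
  have hyR : (1 : ℝ) ≤ y := by exact_mod_cast hy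
  obtain ⟨l, hl⟩ : ∃ l : ℝ, l = (y : ℝ) ^ (A / 2 + ε) := ⟨_, rfl⟩
  have hl0 : 0 < l := by rw [hl]; positivity
  have hll : l * l = (y : ℝ) ^ (A + 2 * ε) := by
    rw [hl, ← Real.rpow_add (by linarith)]
    congr 1
    ring
  rw [← hl]
  have hpt : ∀ b : ℝ, |dd f 0 y α b| ≤ l / 2 + ((m : ℝ) + 1) / (2 * l) * SS f m (α, b) := by
    intro b
    have hadd : ∀ u v w : ℕ, u ≤ v → v ≤ w →
        dd f (u : ℝ) (w : ℝ) α b = dd f (u : ℝ) (v : ℝ) α b + dd f (v : ℝ) (w : ℝ) α b :=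
      fun u v w h1 h2 => hMS3 f u v w α b hf (by exact_mod_cast h1) (by exact_mod_cast h2) hα0
    have h1 := hDYA (fun u v => dd f (u : ℝ) (v : ℝ) α b) hadd m y hy1
    rw [Nat.cast_zero] at h1
    have h2 : dd f 0 y α b ^ 2 ≤ ((m : ℝ) + 1) * SS f m (α, b) := h1
    have h3 : |dd f 0 y α b| ≤ l / 2 + dd f 0 y α b ^ 2 / (2 * l) := by
      have h4 : 0 ≤ (|dd f 0 y α b| - l) ^ 2 / (2 * l) := by positivity
      have h5 : (|dd f 0 y α b| - l) ^ 2 / (2 * l) =
          l / 2 + dd f 0 y α b ^ 2 / (2 * l) - |dd f 0 y α b| := by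
        have h6 : (|dd f 0 y α b| - l) ^ 2 = l ^ 2 + dd f 0 y α b ^ 2 - 2 * l * |dd f 0 y α b| := by
          rw [sub_sq, sq_abs]
          ring
        rw [h6]
        field_simp
      linarith
    refine h3.trans ?_
    have h7 : dd f 0 y α b ^ 2 / (2 * l) ≤ (((m : ℝ) + 1) * SS f m (α, b)) / (2 * l) :=
      div_le_div_of_nonneg_right h2 (by positivity)
    have h8 : (((m : ℝ) + 1) * SS f m (α, b)) / (2 * l) = ((m : ℝ) + 1) / (2 * l) * SS f m (α, b) := by
      ring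
    linarith
  have hgoal0 : 0 ≤ (α + K * 2 ^ (A + 2 * ε)) / 2 * l := by positivity
  by_cases hI : IntervalIntegrable (fun b => |dd f 0 y α b|) volume 0 α
  swap
  · rw [intervalIntegral.integral_undef hI]
    exact hgoal0
  rw [intervalIntegral.integral_of_le hα0.le]
  rw [intervalIntegrable_iff_integrableOn_Ioc_of_le hα0.le] at hI
  rw [← ENNReal.ofReal_le_ofReal_iff hgoal0,
    ofReal_integral_eq_lintegral_ofReal hI (Filter.Eventually.of_forall fun _ => abs_nonneg _)]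
  calc ∫⁻ b in Set.Ioc 0 α, ENNReal.ofReal |dd f 0 y α b|
      ≤ ∫⁻ b in Set.Ioc 0 α, (ENNReal.ofReal (l / 2) +
          ENNReal.ofReal (((m : ℝ) + 1) / (2 * l)) * ENNReal.ofReal (SS f m (α, b))) := by
        apply lintegral_mono
        intro b
        beta_reduce
        rw [← ENNReal.ofReal_mul (by positivity), ← ENNReal.ofReal_add (by positivity)
          (mul_nonneg (by positivity) (SS_nonneg f m _))]
        exact ENNReal.ofReal_le_ofReal (hpt b)
    _ = ENNReal.ofReal (l / 2) * volume (Set.Ioc 0 α) +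
          ENNReal.ofReal (((m : ℝ) + 1) / (2 * l)) *
            ∫⁻ b in Set.Ioc 0 α, ENNReal.ofReal (SS f m (α, b)) := by
        rw [lintegral_add_left measurable_const, setLIntegral_const,
          lintegral_const_mul' _ _ ENNReal.ofReal_ne_top]
    _ ≤ ENNReal.ofReal (l / 2) * ENNReal.ofReal α +
          ENNReal.ofReal (((m : ℝ) + 1) / (2 * l)) * ENNReal.ofReal ((W m)⁻¹ * K) := by
        rw [Real.volume_Ioc, sub_zero]
        gcongr
        refine le_trans ?_ (hbound m)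
        apply lintegral_mono_set
        intro b hb
        exact ⟨by linarith [hb.1], by linarith [hb.2, hα.2]⟩
    _ = ENNReal.ofReal (l / 2 * α + ((m : ℝ) + 1) / (2 * l) * ((W m)⁻¹ * K)) := by
        have hWi := inv_nonneg.mpr (hW0 m)
        rw [← ENNReal.ofReal_mul (by positivity), ← ENNReal.ofReal_mul (by positivity),
          ← ENNReal.ofReal_add (by positivity) (by positivity)]
    _ ≤ _ := by
        apply ENNReal.ofReal_le_ofReal
        have h1 : ((m : ℝ) + 1) * (W m)⁻¹ = ((2 : ℝ) ^ m) ^ (A + 2 * ε) := by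
          rw [hW]
          simp only
          rw [Real.rpow_neg (by positivity)]
          field_simp
        have h3 : ((2 : ℝ) ^ m) ^ (A + 2 * ε) ≤ 2 ^ (A + 2 * ε) * (l * l) := by
          rw [hll, ← Real.mul_rpow (by norm_num) (by positivity)]
          apply Real.rpow_le_rpow (by positivity) _ (by positivity)
          exact_mod_cast hy2
        have h4 : ((m : ℝ) + 1) / (2 * l) * ((W m)⁻¹ * K) =
            (((m : ℝ) + 1) * (W m)⁻¹) * (K / (2 * l)) := by ring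
        rw [h4, h1]
        have h5 := mul_le_mul_of_nonneg_right h3 (show 0 ≤ K / (2 * l) by positivity)
        have h6 : 2 ^ (A + 2 * ε) * (l * l) * (K / (2 * l)) = K * 2 ^ (A + 2 * ε) / 2 * l := by
          field_simp
        linarith

/-- Borel-Cantelli in `α` -/
theorem t_BC2 : S_L2 → S_DYA → S_MS → S_BC2 := by
  intro hL2 hDYA hMS f A hf hf0 hA hM a ha
  have h : ∀ k : ℕ, ∀ᵐ α : ℝ ∂(volume.restrict (Set.Icc a (2 * a))),
      ∃ C : ℝ, 0 ≤ C ∧ ∀ y : ℕ, 1 ≤ y →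
        ∫ b in (0:ℝ)..α, |dd f 0 y α b| ≤ C * (y : ℝ) ^ (A / 2 + 1 / ((k : ℝ) + 1)) :=
    fun k => one_eps2 hL2 hDYA hMS f A hf hf0 hA hM a ha _ (by positivity)
  rw [← ae_all_iff] at h
  filter_upwards [h] with α hα ε hε
  obtain ⟨k, hk⟩ := exists_nat_one_div_lt hε
  obtain ⟨C, hC0, hC⟩ := hα k
  refine ⟨C, fun y hy => (hC y hy).trans ?_⟩
  have hyR : (1 : ℝ) ≤ y := by exact_mod_cast hy
  exact mul_le_mul_of_nonneg_left (Real.rpow_le_rpow_of_exponent_le hyR (by linarith)) hC0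

end Pool.Agent.D0H74.DM
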