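import Pool.Agent.D0H44.DM.Stm2

/-!
# Project DM (helper44), module PT: pointwise bound from the mean squares of `f` and `f'`
-/

set_option autoImplicit false

namespace Pool.Agent.D0H74.DM

open MeasureTheory Set Pool.Agent.D0H44.DM

/-- the pointwise bound -/
theorem pt (f : ℝ → ℝ) (hf : ContDiff ℝ 1 f) (t : ℝ) (ht : 0 ≤ t) :
    f t ^ 2 ≤ 2 * (∫ s in (0:ℝ)..(t + 1), f s ^ 2) + ∫ s in (0:ℝ)..(t + 1), deriv f s ^ 2 := by
  have hc : Continuous f := hf.continuous
  have hc' : Continuous (deriv f) := hf.continuous_deriv le_rfl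
  have hd : ∀ x, HasDerivAt f (deriv f x) x := fun x =>
    (hf.differentiable (by norm_num) x).hasDerivAt
  have hc2 : Continuous (fun s => f s ^ 2) := hc.pow 2
  have hc2' : Continuous (fun s => deriv f s ^ 2) := hc'.pow 2
  have hcs : Continuous (fun s => f s ^ 2 + deriv f s ^ 2) := hc2.add hc2'
  obtain ⟨I, hI⟩ : ∃ I, I = ∫ s in t..(t + 1), (f s ^ 2 + deriv f s ^ 2) := ⟨_, rfl⟩
  have key : ∀ s ∈ Icc t (t + 1), f t ^ 2 ≤ f s ^ 2 + I := by
    intro s hs
    have h1 : ∫ x in t..s, 2 * f x * deriv f x = f s ^ 2 - f t ^ 2 := by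
      apply intervalIntegral.integral_eq_sub_of_hasDerivAt
      · intro x _
        have h := (hd x).pow 2
        have e : ((2 : ℕ) : ℝ) * f x ^ (2 - 1) * deriv f x = 2 * f x * deriv f x := by norm_num
        rw [e] at h
        exact h
      · exact ((continuous_const.mul hc).mul hc').intervalIntegrable _ _
    have h2 : ∫ x in t..s, -(f x ^ 2 + deriv f x ^ 2) ≤ ∫ x in t..s, 2 * f x * deriv f x := by
      apply intervalIntegral.integral_mono_on hs.1
      · exact hcs.neg.intervalIntegrable _ _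
      · exact ((continuous_const.mul hc).mul hc').intervalIntegrable _ _
      · intro x _
        nlinarith [sq_nonneg (f x + deriv f x)]
    rw [intervalIntegral.integral_neg] at h2
    have h3 : ∫ x in t..s, (f x ^ 2 + deriv f x ^ 2) ≤ I := by
      rw [hI]
      apply intervalIntegral.integral_mono_interval le_rfl hs.1 hs.2
      · exact Filter.Eventually.of_forall fun x => by positivity
      · exact hcs.intervalIntegrable _ _
    linarith
  have h4 : ∫ s in t..(t + 1), f t ^ 2 ≤ ∫ s in t..(t + 1), (f s ^ 2 + I) := by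
    apply intervalIntegral.integral_mono_on (by linarith)
    · exact intervalIntegrable_const
    · exact (hc2.add continuous_const).intervalIntegrable _ _
    · exact key
  rw [intervalIntegral.integral_const, intervalIntegral.integral_add (hc2.intervalIntegrable _ _)
    intervalIntegrable_const, intervalIntegral.integral_const] at h4
  have e1 : t + 1 - t = 1 := by ring
  rw [e1, one_smul, one_smul] at h4
  rw [hI, intervalIntegral.integral_add (hc2.intervalIntegrable _ _)
    (hc2'.intervalIntegrable _ _)] at h4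
  have h5 : ∫ s in t..(t + 1), f s ^ 2 ≤ ∫ s in (0:ℝ)..(t + 1), f s ^ 2 := by
    apply intervalIntegral.integral_mono_interval ht (by linarith) le_rfl
    · exact Filter.Eventually.of_forall fun x => by positivity
    · exact hc2.intervalIntegrable _ _
  have h6 : ∫ s in t..(t + 1), deriv f s ^ 2 ≤ ∫ s in (0:ℝ)..(t + 1), deriv f s ^ 2 := by
    apply intervalIntegral.integral_mono_interval ht (by linarith) le_rfl
    · exact Filter.Eventually.of_forall fun x => by positivity
    · exact hc2'.intervalIntegrable _ _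
  linarith

theorem t_PT : S_PT := by
  intro f A hf hf0 hA hM hM' ε hε
  obtain ⟨C1, hC1⟩ := hM (2 * ε) (by linarith)
  obtain ⟨C2, hC2⟩ := hM' (2 * ε) (by linarith)
  obtain ⟨K, hK⟩ : ∃ K : ℝ, K = (2 * |C1| + |C2|) * 2 ^ (A + 2 * ε) := ⟨_, rfl⟩
  have hK0 : 0 ≤ K := by rw [hK]; positivity
  refine ⟨Real.sqrt K, ?_⟩
  intro t ht
  have h1 := pt f hf t (by linarith)
  have h2 := hC1 (t + 1) (by linarith)
  have h3 := hC2 (t + 1) (by linarith)
  have h4 : (t + 1) ^ (A + 2 * ε) ≤ 2 ^ (A + 2 * ε) * t ^ (A + 2 * ε) := by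
    rw [← Real.mul_rpow (by norm_num) (by linarith)]
    exact Real.rpow_le_rpow (by linarith) (by linarith) (by positivity)
  have h5 : 0 ≤ (t + 1) ^ (A + 2 * ε) := Real.rpow_nonneg (by linarith) _
  have h6 : C1 * (t + 1) ^ (A + 2 * ε) ≤ |C1| * (2 ^ (A + 2 * ε) * t ^ (A + 2 * ε)) :=
    mul_le_mul (le_abs_self C1) h4 h5 (abs_nonneg C1)
  have h7 : C2 * (t + 1) ^ (A + 2 * ε) ≤ |C2| * (2 ^ (A + 2 * ε) * t ^ (A + 2 * ε)) :=
    mul_le_mul (le_abs_self C2) h4 h5 (abs_nonneg C2)
  have h8 : f t ^ 2 ≤ K * t ^ (A + 2 * ε) := by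
    rw [hK]
    linarith
  have h9 : Real.sqrt (t ^ (A + 2 * ε)) = t ^ (A / 2 + ε) := by
    rw [Real.sqrt_eq_rpow, ← Real.rpow_mul (by linarith)]
    congr 1
    ring
  calc f t = Real.sqrt (f t ^ 2) := (Real.sqrt_sq (hf0 t)).symm
    _ ≤ Real.sqrt (K * t ^ (A + 2 * ε)) := Real.sqrt_le_sqrt h8
    _ = Real.sqrt K * t ^ (A / 2 + ε) := by rw [Real.sqrt_mul hK0, h9]

end Pool.Agent.D0H74.DM
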